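import Mathlib
import Pool.Agent.Lib.MP_05805c_nt.L35.MainR
import Pool.Agent.Lib.MP_05805c_nt.L35.Example2

/-!
# Morphisms of `ℙ^N` over symmetric powers of Lattès maps have many components modulo `p`
-/

set_option autoImplicit false

namespace Pool.Agent.Results.MP_05805c_nt.LattesSymmetricPowers

open MvPolynomial Pool.Agent.Lib.MP_05805c_nt

/-- `[F 0 : … : F N]` is a morphism of degree `d` of `ℙ^N` over `ℚ`: the `F i` are homogeneous of
degree `d` and have no common zero in `ℙ^N` over an algebraic closure of `ℚ`. -/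
def IsMorphism (N d : ℕ) (F : Fin (N + 1) → MvPolynomial (Fin (N + 1)) ℤ) : Prop :=
  (∀ i, (F i).IsHomogeneous d) ∧
    ∀ v : Fin (N + 1) → AlgebraicClosure ℚ, (∀ i, aeval v (F i) = 0) → v = 0

/-- general real exponent and constant -/
lemma mul_compAvg_le (p : ℕ) (hp : 2 ≤ p) (K t : ℝ) :
    K * compAvg ⌊(p : ℝ) ^ t⌋₊ ≤ (|K| * (2 + |t|)) * Real.log p := by
  have hp' : (2 : ℝ) ≤ p := by exact_mod_cast hp
  have hlog2 : (0.6931471803 : ℝ) < Real.log 2 := Real.log_two_gt_d9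
  have hlp : Real.log 2 ≤ Real.log p := Real.log_le_log (by norm_num) hp'
  have hlogp : 0 < Real.log p := by linarith
  have h0 : 0 ≤ compAvg ⌊(p : ℝ) ^ t⌋₊ := by
    unfold compAvg
    apply div_nonneg
    · exact Finset.sum_nonneg (fun g _ => Nat.cast_nonneg _)
    · positivity
  have h1 : compAvg ⌊(p : ℝ) ^ t⌋₊ ≤ (2 + |t|) * Real.log p := by
    rcases Nat.eq_zero_or_pos ⌊(p : ℝ) ^ t⌋₊ with h | h
    · rw [h]
      refine (compAvg_le 0).trans ?_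
      simp only [Finset.Icc_eq_empty_of_lt Nat.zero_lt_one, Finset.sum_empty]
      positivity
    · refine (compAvg_le_log _ h).trans ?_
      have h2 : (⌊(p : ℝ) ^ t⌋₊ : ℝ) ≤ (p : ℝ) ^ t := Nat.floor_le (by positivity)
      have h3 : Real.log (⌊(p : ℝ) ^ t⌋₊ : ℝ) ≤ t * Real.log p := by
        rw [← Real.log_rpow (by linarith)]
        exact Real.log_le_log (by exact_mod_cast h) h2
      have h4 : t * Real.log p ≤ |t| * Real.log p :=
        mul_le_mul_of_nonneg_right (le_abs_self t) hlogp.le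
      nlinarith
  calc K * compAvg ⌊(p : ℝ) ^ t⌋₊ ≤ |K| * compAvg ⌊(p : ℝ) ^ t⌋₊ :=
        mul_le_mul_of_nonneg_right (le_abs_self K) h0
    _ ≤ |K| * ((2 + |t|) * Real.log p) := mul_le_mul_of_nonneg_left h1 (abs_nonneg K)
    _ = _ := by ring

/-- On the coordinate subspace `L = {v_i = 0 for i > n}` the first `k + 1` coordinates follow, up to
the constant `c`, the `k`-th symmetric power of the map `g` of the line: if they are the coordinates
(the coefficients of `∏ (z_l T + x_l)`) of the unordered tuple of the points `(x_l : z_l)`, then those of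
`F v` are `c` times the coordinates of the tuple of the `g (x_l, z_l)`. -/
def SymBase (N n k : ℕ) (hkN : k + 1 ≤ N + 1) (F : Fin (N + 1) → MvPolynomial (Fin (N + 1)) ℤ)
    (g : ℤ × ℤ → ℤ × ℤ) (c : ℤ) : Prop :=
  ∀ (x : Fin k → ℤ × ℤ) (v : Fin (N + 1) → ℤ), (∀ i : Fin (k + 1), v (Fin.castLE hkN i) = symc x i) →
    (∀ i : Fin (N + 1), n < (i : ℕ) → v i = 0) → ∀ l : Fin (k + 1),
    eval v (F (Fin.castLE hkN l)) = c * symc (fun l => g (x l)) l

/-- The same for `k = 2` and the symmetric square of `g` followed by the `j`-th iterate of the map of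
degree two of `ℙ²` induced by `(P, Q) ↦ (P + Q, P - Q)`. -/
def SumDiffBase (N n : ℕ) (hN : 2 + 1 ≤ N + 1) (F : Fin (N + 1) → MvPolynomial (Fin (N + 1)) ℤ)
    (a b : ℤ) (g : ℤ × ℤ → ℤ × ℤ) (c : ℤ) (j : ℕ) : Prop :=
  ∀ (x : Fin 2 → ℤ × ℤ) (v : Fin (N + 1) → ℤ), (∀ i : Fin (2 + 1), v (Fin.castLE hN i) = symc x i) →
    (∀ i : Fin (N + 1), n < (i : ℕ) → v i = 0) → ∀ l : Fin (2 + 1),
    eval v (F (Fin.castLE hN l)) = c * (sd a b)^[j] (symc fun l => g (x l)) l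

/-- the bound for the number of exceptional primes -/
theorem count_bound (N n k d : ℕ) (hk : 2 ≤ k) (hkn : k ≤ n) (hkN : k + 1 ≤ N + 1)
    (F : Fin (N + 1) → MvPolynomial (Fin (N + 1)) ℤ) (hF : ∀ i, (F i).IsHomogeneous d)
    (hsub : ∀ i : Fin (N + 1), n < (i : ℕ) → F i ∈ tailIdeal N n)
    (a b : ℤ) (hab : 4 * a ^ 3 + 27 * b ^ 2 ≠ 0) (τ : ℤ × ℤ) (m : ℕ)
    (G : ℕ → Fin 2 → MvPolynomial (Fin 2) ℤ) (c c' : ℕ → ℤ) (hG : LattesChain a b τ m G c c')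
    (e : ℕ) (hGe : ∀ i, (G m i).IsHomogeneous e) (c₀ : ℤ) (hc₀ : c₀ ≠ 0) (i j : ℕ)
    (hbase : SymBase N n k hkN F (ev2 (G m))^[i] c₀ ∨
      ∃ (_ : k = 2) (_ : τ = (1, 0)) (hN : 2 + 1 ≤ N + 1), SumDiffBase N n hN F a b (ev2 (G m))^[i] c₀ j) :
    ∃ C : ℝ, 0 ≤ C ∧ ∀ (X : ℕ) (y : ℝ), 2 ≤ X → 1 ≤ y →
      ({p : ℕ | p ≤ X ∧ ∃ _ : Fact p.Prime, (comps (redMap p F) : ℝ) ≤ y ^ (k - 1)}.ncard : ℝ) ≤
        C * y ^ 2 * Real.log X ^ (2 * (2 * m).primeFactors.card) := by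
  classical
  set S : ℕ := ∑ l ∈ Finset.range m, ((c l).natAbs + (c' l).natAbs) with hS
  set P0 : ℕ := 2 + c₀.natAbs + (4 * a ^ 3 + 27 * b ^ 2).natAbs + S with hP0
  set c₁ : ℕ := 2 * (2 * k) ^ k with hc₁
  set ω : ℕ := (2 * m).primeFactors.card with hω
  have hm : 1 ≤ m := hG.one_le
  have hω1 : 1 ≤ ω := by
    rw [hω, Nat.one_le_iff_ne_zero, Finset.card_ne_zero]
    exact ⟨2, Nat.mem_primeFactors.2 ⟨Nat.prime_two, dvd_mul_right 2 m, by omega⟩⟩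
  have hc1R : (1 : ℝ) ≤ (c₁ : ℝ) := by
    have : 0 < 2 * (2 * k) ^ k := by positivity
    exact_mod_cast this
  -- the exceptional primes
  have hfew : ∀ p : ℕ, ∀ _ : Fact p.Prime, P0 < p → ∀ y : ℝ, 1 ≤ y → (comps (redMap p F) : ℝ) ≤ y ^ (k - 1) →
      p ∈ twoPartsR (2 * m) ⌊(c₁ : ℝ) * y⌋₊ := by
    intro p hpf hp y hy hcomp
    have hz : ∀ z : ℤ, z ≠ 0 → z.natAbs < p → (z : ZMod p) ≠ 0 := by
      intro z hz0 hzp h
      rw [ZMod.intCast_zmod_eq_zero_iff_dvd] at h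
      have h1 := Int.natAbs_dvd_natAbs.2 h
      rw [Int.natAbs_natCast] at h1
      have := Nat.le_of_dvd (Int.natAbs_pos.2 hz0) h1
      omega
    have h2 : (2 : ZMod p) ≠ 0 := by
      have := hz 2 (by norm_num) (by norm_num; omega)
      exact_mod_cast this
    have hc0' := hz c₀ hc₀ (by omega)
    have hab' := hz _ hab (by omega)
    have hcc : ∀ l < m, (c l : ZMod p) ≠ 0 ∧ (c' l : ZMod p) ≠ 0 := by
      intro l hl
      have h3 : (c l).natAbs + (c' l).natAbs ≤ S := by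
        rw [hS]
        exact Finset.single_le_sum (f := fun l => (c l).natAbs + (c' l).natAbs) (fun _ _ => Nat.zero_le _)
          (Finset.mem_range.2 hl)
      obtain ⟨h4, h5⟩ := hG.ne_zero l hl
      exact ⟨hz _ h4 (by omega), hz _ h5 (by omega)⟩
    have hΔ : 4 * (a : ZMod p) ^ 3 + 27 * (b : ZMod p) ^ 2 ≠ 0 := by
      push_cast at hab'
      exact hab'
    obtain ⟨r, hr, hrm, hL⟩ := base_all hkN hkn F a b c₀ hG e hGe i j hbase p h2 hc0' hcc hΔ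
    obtain ⟨u, q, u', q', s1, s2, hu, hu', hq, hq', hsum, h3, h4⟩ :=
      pointwise_lattes hk hkn hkN F hF hsub a b p (by omega) hΔ r hr hL
    have key : ∀ r : ℕ, r ^ (k - 1) ≤ 2 * (2 * k) ^ k * comps (redMap p F) → r ≤ ⌊(c₁ : ℝ) * y⌋₊ := by
      intro r hr
      refine Nat.le_floor ?_
      have h5 : (r : ℝ) ^ (k - 1) ≤ ((c₁ : ℝ) * y) ^ (k - 1) := by
        have h6 : (r : ℝ) ^ (k - 1) ≤ (c₁ : ℝ) * (comps (redMap p F) : ℝ) := by exact_mod_cast hr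
        refine h6.trans ?_
        rw [mul_pow (c₁ : ℝ) y (k - 1)]
        refine mul_le_mul ?_ hcomp (by positivity) (by positivity)
        exact le_self_pow₀ hc1R (by omega)
      exact le_of_pow_le_pow_left₀ (by omega) (by positivity) h5
    exact ⟨u, q, u', q', fun ℓ hℓ hd => hrm ℓ hℓ (s1 ℓ hℓ hd), fun ℓ hℓ hd => hrm ℓ hℓ (s2 ℓ hℓ hd), hu, hu', hq,
      key q h3, hq', key q' h4, hsum⟩
  refine ⟨4 ^ ω * (P0 + 1) + (6 ^ ω * (c₁ + 1)) ^ 2, by positivity, fun X y hX hy => ?_⟩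
  have hX' : (2 : ℝ) ≤ X := by exact_mod_cast hX
  have hl2 : (0.6931471803 : ℝ) < Real.log 2 := Real.log_two_gt_d9
  have hlX : Real.log 2 ≤ Real.log X := Real.log_le_log (by norm_num) hX'
  have hlX0 : 0 ≤ Real.log X := by linarith
  set Y : ℕ := ⌊(c₁ : ℝ) * y⌋₊ with hY
  have hYle : (Y : ℝ) ≤ c₁ * y := Nat.floor_le (by positivity)
  have hsub2 : {p : ℕ | p ≤ X ∧ ∃ _ : Fact p.Prime, (comps (redMap p F) : ℝ) ≤ y ^ (k - 1)} ⊆
      (Finset.range (P0 + 1) : Set ℕ) ∪ {p | p ≤ X ∧ p ∈ twoPartsR (2 * m) Y} := by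
    rintro p ⟨hpX, hpf, hcomp⟩
    rcases Nat.lt_or_ge P0 p with h | h
    · exact Or.inr ⟨hpX, hfew p hpf h y hy hcomp⟩
    · left
      rw [Finset.mem_coe, Finset.mem_range]
      omega
  have hfin : ({p | p ≤ X ∧ p ∈ twoPartsR (2 * m) Y} : Set ℕ).Finite :=
    (Set.finite_Iic X).subset fun p hp => hp.1
  have h1 : ({p : ℕ | p ≤ X ∧ ∃ _ : Fact p.Prime, (comps (redMap p F) : ℝ) ≤ y ^ (k - 1)}.ncard) ≤
      (P0 + 1) + ((Nat.log 2 (2 * X + 2) + 1) ^ ω * (Y + 1)) ^ 2 := by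
    refine (Set.ncard_le_ncard hsub2 ((Finset.finite_toSet _).union hfin)).trans ?_
    refine (Set.ncard_union_le _ _).trans ?_
    refine add_le_add ?_ (twoPartsR_ncard (2 * m) (by omega) X Y)
    rw [Set.ncard_coe_finset, Finset.card_range]
  have h2 : (({p : ℕ | p ≤ X ∧ ∃ _ : Fact p.Prime, (comps (redMap p F) : ℝ) ≤ y ^ (k - 1)}.ncard) : ℝ) ≤
      (P0 + 1) + (((Nat.log 2 (2 * X + 2) + 1 : ℕ) : ℝ) ^ ω * (Y + 1)) ^ 2 := by
    exact_mod_cast h1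
  have h3 := log_bound X hX
  have h4 : ((Nat.log 2 (2 * X + 2) + 1 : ℕ) : ℝ) ^ ω * (Y + 1) ≤ (6 * Real.log X) ^ ω * ((c₁ + 1) * y) := by
    refine mul_le_mul (pow_le_pow_left₀ (by positivity) h3 ω) ?_ (by positivity) (by positivity)
    nlinarith
  have h5 : (((Nat.log 2 (2 * X + 2) + 1 : ℕ) : ℝ) ^ ω * (Y + 1)) ^ 2 ≤ ((6 * Real.log X) ^ ω * ((c₁ + 1) * y)) ^ 2 :=
    pow_le_pow_left₀ (by positivity) h4 2
  have h7 : (1 : ℝ) ≤ 4 ^ ω * Real.log X ^ (2 * ω) := by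
    have h8 : (1 : ℝ) ≤ 4 * Real.log X ^ 2 := by nlinarith
    have h9 := one_le_pow₀ (n := ω) h8
    rwa [mul_pow, ← pow_mul] at h9
  have h8 : (1 : ℝ) ≤ y ^ 2 := one_le_pow₀ hy
  have h6 : (1 : ℝ) ≤ 4 ^ ω * (y ^ 2 * Real.log X ^ (2 * ω)) := by
    calc (1 : ℝ) = 1 * 1 := (one_mul 1).symm
      _ ≤ y ^ 2 * (4 ^ ω * Real.log X ^ (2 * ω)) := mul_le_mul h8 h7 zero_le_one (by positivity)
      _ = _ := by ring
  have h9 : (P0 : ℝ) + 1 ≤ (4 ^ ω * (P0 + 1)) * (y ^ 2 * Real.log X ^ (2 * ω)) := by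
    have h10 : (0 : ℝ) ≤ (P0 : ℝ) + 1 := by positivity
    calc (P0 : ℝ) + 1 = ((P0 : ℝ) + 1) * 1 := (mul_one _).symm
      _ ≤ ((P0 : ℝ) + 1) * (4 ^ ω * (y ^ 2 * Real.log X ^ (2 * ω))) := mul_le_mul_of_nonneg_left h6 h10
      _ = _ := by ring
  calc (({p : ℕ | p ≤ X ∧ ∃ _ : Fact p.Prime, (comps (redMap p F) : ℝ) ≤ y ^ (k - 1)}.ncard) : ℝ)
      ≤ (P0 + 1) + (((Nat.log 2 (2 * X + 2) + 1 : ℕ) : ℝ) ^ ω * (Y + 1)) ^ 2 := h2
    _ ≤ (4 ^ ω * (P0 + 1)) * (y ^ 2 * Real.log X ^ (2 * ω)) + ((6 * Real.log X) ^ ω * ((c₁ + 1) * y)) ^ 2 :=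
        add_le_add h9 h5
    _ = _ := by
        rw [mul_pow (6 : ℝ) (Real.log X) ω, mul_comm 2 ω, pow_mul]
        ring

/-- Let `2 ≤ k ≤ n ≤ N` and let `F` be a morphism of `ℙ^N` mapping the coordinate subspace
`L = {x_i = 0 for i > n}` into itself, such that on `L` the first `k + 1` coordinates follow the `k`-th
symmetric power of an iterate of the Lattès map `x(P) ↦ x(m P + T)` of `y² = x³ + a x + b` (`T = O`, or `T` a
point of order two with integral coordinates; the map is given by a chain of pairs of forms), or, if `k = 2` and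
`T = O`, the symmetric square of such an iterate followed by an iterate of the quadratic map of `ℙ²` given by
`(P, Q) ↦ (P + Q, P - Q)`. -/
theorem result (N n k d : ℕ) (hk : 2 ≤ k) (hkn : k ≤ n) (hkN : k + 1 ≤ N + 1)
    (F : Fin (N + 1) → MvPolynomial (Fin (N + 1)) ℤ) (hF : IsMorphism N d F)
    (hsub : ∀ i : Fin (N + 1), n < (i : ℕ) → F i ∈ tailIdeal N n)
    (a b : ℤ) (hab : 4 * a ^ 3 + 27 * b ^ 2 ≠ 0) (τ : ℤ × ℤ) (m : ℕ)
    (G : ℕ → Fin 2 → MvPolynomial (Fin 2) ℤ) (c c' : ℕ → ℤ) (hG : LattesChain a b τ m G c c')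
    (e : ℕ) (hGe : ∀ i, (G m i).IsHomogeneous e) (c₀ : ℤ) (hc₀ : c₀ ≠ 0) (i j : ℕ)
    (hbase : SymBase N n k hkN F (ev2 (G m))^[i] c₀ ∨
      ∃ (_ : k = 2) (_ : τ = (1, 0)) (hN : 2 + 1 ≤ N + 1), SumDiffBase N n hN F a b (ev2 (G m))^[i] c₀ j) :
    (∃ C : ℝ, ∀ (X : ℕ) (y : ℝ), 2 ≤ X → 1 ≤ y →
      ({p : ℕ | p ≤ X ∧ ∃ _ : Fact p.Prime, (comps (redMap p F) : ℝ) ≤ y ^ (k - 1)}.ncard : ℝ) ≤
        C * y ^ 2 * Real.log X ^ (2 * (2 * m).primeFactors.card)) ∧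
    (∀ δ : ℝ, 0 < δ → HasDensityZero {p : ℕ | ∃ _ : Fact p.Prime, GoodReduction p F ∧
      (comps (redMap p F) : ℝ) ≤ (p : ℝ) ^ (((k - 1 : ℕ) : ℝ) / 2 - δ)}) ∧
    (∀ K ε : ℝ, HasDensityZero {p : ℕ | ∃ _ : Fact p.Prime, GoodReduction p F ∧
      (comps (redMap p F) : ℝ) ≤ K * compAvg ⌊(p : ℝ) ^ ((1 - ε) * N)⌋₊}) := by
  obtain ⟨C, hC0, hC⟩ := count_bound N n k d hk hkn hkN F hF.1 hsub a b hab τ m G c c' hG e hGe c₀ hc₀ i j hbase
  have hk1 : (1 : ℝ) ≤ ((k - 1 : ℕ) : ℝ) := by exact_mod_cast (by omega : 1 ≤ k - 1)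
  have hk0 : (0 : ℝ) < ((k - 1 : ℕ) : ℝ) := by linarith
  set ω : ℕ := (2 * m).primeFactors.card with hω
  refine ⟨⟨C, hC⟩, fun δ hδ => ?_, fun K ε => ?_⟩
  · set e : ℝ := max (((k - 1 : ℕ) : ℝ) / 2 - δ) 0 with he
    have he0 : 0 ≤ e := le_max_right _ _
    have he1 : e < ((k - 1 : ℕ) : ℝ) / 2 := max_lt (by linarith) (by linarith)
    refine densityZero_of_count _ C (2 * (e / ((k - 1 : ℕ) : ℝ))) ?_ (2 * ω) fun X hX => ?_
    · rw [mul_div_assoc', div_lt_one hk0]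
      linarith
    · have hX1 : (1 : ℝ) ≤ X := by exact_mod_cast (by omega : 1 ≤ X)
      have h1 := hC X ((X : ℝ) ^ (e / ((k - 1 : ℕ) : ℝ))) (by omega)
        (Real.one_le_rpow hX1 (div_nonneg he0 hk0.le))
      have h2 : (((X : ℝ) ^ (e / ((k - 1 : ℕ) : ℝ))) ^ (k - 1)) = (X : ℝ) ^ e := by
        rw [← Real.rpow_natCast, ← Real.rpow_mul (by linarith), div_mul_cancel₀ _ hk0.ne']
      have h3 : (((X : ℝ) ^ (e / ((k - 1 : ℕ) : ℝ))) ^ 2) = (X : ℝ) ^ (2 * (e / ((k - 1 : ℕ) : ℝ))) := by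
        rw [← Real.rpow_natCast, ← Real.rpow_mul (by linarith)]
        congr 1
        push_cast
        ring
      rw [h2, h3] at h1
      refine le_trans ?_ h1
      rw [Nat.cast_le]
      refine Set.ncard_le_ncard ?_ ((Set.finite_Iic X).subset fun p hp => hp.1)
      rintro p ⟨hpX, hp, hpf, _, hle⟩
      refine ⟨hpX, hpf, hle.trans ?_⟩
      have hp1 : (1 : ℝ) ≤ p := by exact_mod_cast hp.one_lt.le
      have hpX' : (p : ℝ) ≤ X := by exact_mod_cast hpX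
      exact (Real.rpow_le_rpow_of_exponent_le hp1 (le_max_left _ _)).trans
        (Real.rpow_le_rpow (by linarith) hpX' he0)
  · set B : ℝ := |K| * (2 + |(1 - ε) * N|) with hB
    have hB0 : 0 ≤ B := by positivity
    refine densityZero_of_count _ (C * (B + 1) ^ 2) 0 one_pos (2 * ω + 2) fun X hX => ?_
    have hX3 : (3 : ℝ) ≤ X := by exact_mod_cast hX
    have hlX : 1 ≤ Real.log X := by
      rw [Real.le_log_iff_exp_le (by linarith)]
      exact (Real.exp_one_lt_d9.le.trans (by norm_num)).trans hX3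
    have hy : 1 ≤ (B + 1) * Real.log X := by nlinarith
    have h1 := hC X ((B + 1) * Real.log X) (by omega) hy
    have h2 : C * ((B + 1) * Real.log X) ^ 2 * Real.log X ^ (2 * ω) =
        C * (B + 1) ^ 2 * (X : ℝ) ^ (0 : ℝ) * Real.log X ^ (2 * ω + 2) := by
      rw [Real.rpow_zero, pow_add]
      ring
    rw [h2] at h1
    refine le_trans ?_ h1
    rw [Nat.cast_le]
    refine Set.ncard_le_ncard ?_ ((Set.finite_Iic X).subset fun p hp => hp.1)
    rintro p ⟨hpX, hp, hpf, _, hle⟩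
    refine ⟨hpX, hpf, hle.trans ?_⟩
    have hp1 : (1 : ℝ) ≤ p := by exact_mod_cast hp.one_lt.le
    have hpX' : (p : ℝ) ≤ X := by exact_mod_cast hpX
    have h3 := mul_compAvg_le p hp.two_le K ((1 - ε) * N)
    refine h3.trans ?_
    have h4 : Real.log p ≤ Real.log X := Real.log_le_log (by linarith) hpX'
    have h5 : B * Real.log p ≤ (B + 1) * Real.log X := by
      have h6 : 0 ≤ Real.log p := Real.log_nonneg hp1
      nlinarith
    exact h5.trans (le_self_pow₀ hy (by omega))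

/-- The hypotheses of `result` hold for the quadratic morphism `(q_0 : q_1 : q_2 : x_3² : … : x_N²)` of `ℙ^N`,
`N ≥ 2`, the `q_i` the forms of sum and difference on `y² = x³ + a x + b`. -/
theorem quadratic_family (N : ℕ) (hN : 2 + 1 ≤ N + 1) (a b : ℤ) (hab : 4 * a ^ 3 + 27 * b ^ 2 ≠ 0) :
    IsMorphism N 2 (sdEx N hN a b) ∧ SumDiffBase N N hN (sdEx N hN a b) a b (ev2 (dupForms a b 1))^[1] 1 1 ∧
    ∀ K ε : ℝ, HasDensityZero {p : ℕ | ∃ _ : Fact p.Prime, GoodReduction p (sdEx N hN a b) ∧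
      (comps (redMap p (sdEx N hN a b)) : ℝ) ≤ K * compAvg ⌊(p : ℝ) ^ ((1 - ε) * N)⌋₊} := by
  have h1 : IsMorphism N 2 (sdEx N hN a b) := ⟨sdEx_isHomogeneous N hN a b, sdEx_noZero N hN a b hab⟩
  have h2 : SumDiffBase N N hN (sdEx N hN a b) a b (ev2 (dupForms a b 1))^[1] 1 1 := by
    intro x v hv _ l
    rw [sdEx_base]
    have h3 : (fun l => v (Fin.castLE hN l)) = symc fun l => (ev2 (dupForms a b 1))^[1] (x l) := by
      funext l'
      rw [hv l']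
      congr 1
      funext l''
      exact (ev2_dupForms_one a b (x l'')).symm
    rw [h3]
  exact ⟨h1, h2, (result N N 2 2 le_rfl (by omega) hN (sdEx N hN a b) h1 (fun i hi => absurd i.2 (by omega)) a b hab
    (1, 0) 1 (dupForms a b) 1 1 (id_chain a b) 1 (dupForms_one_hom a b) 1 one_ne_zero 1 1
    (Or.inr ⟨rfl, rfl, hN, h2⟩)).2.2⟩

end Pool.Agent.Results.MP_05805c_nt.LattesSymmetricPowers
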