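import Mathlib
import Pool.Agent.Lib.MP_05805c_nt.Pointwise

/-!
# Morphisms of `ℙ^N` with a power or Chebyshev map on two coordinates of an invariant subspace
-/

set_option autoImplicit false

namespace Pool.Agent.Results.MP_05805c_nt.PowerChebyshevBase

open MvPolynomial Pool.Agent.Lib.MP_05805c_nt

/-- `[F 0 : … : F N]` is a morphism of degree `d` of `ℙ^N` over `ℚ`: the `F i` are homogeneous of
degree `d` and have no common zero in `ℙ^N` over an algebraic closure of `ℚ`. -/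
def IsMorphism (N d : ℕ) (F : Fin (N + 1) → MvPolynomial (Fin (N + 1)) ℤ) : Prop :=
  (∀ i, (F i).IsHomogeneous d) ∧
    ∀ v : Fin (N + 1) → AlgebraicClosure ℚ, (∀ i, aeval v (F i) = 0) → v = 0

/-- general real exponent and constant -/
lemma mul_compAvg_le (p : ℕ) (hp : 2 ≤ p) (K t : ℝ) :
    K * compAvg ⌊(p : ℝ) ^ t⌋₊ ≤ (|K| * (2 + |t|)) * Real.log p := by
  have hp' : (2 : ℝ) ≤ p := by exact_mod_cast hp
  have hlog2 : (0.6931471803 : ℝ) < Real.log 2 := Real.log_two_gt_d9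
  have hlp : Real.log 2 ≤ Real.log p := Real.log_le_log (by norm_num) hp'
  have hlogp : 0 < Real.log p := by linarith
  have h0 : 0 ≤ compAvg ⌊(p : ℝ) ^ t⌋₊ := by
    unfold compAvg
    apply div_nonneg
    · exact Finset.sum_nonneg (fun g _ => Nat.cast_nonneg _)
    · positivity
  have h1 : compAvg ⌊(p : ℝ) ^ t⌋₊ ≤ (2 + |t|) * Real.log p := by
    rcases Nat.eq_zero_or_pos ⌊(p : ℝ) ^ t⌋₊ with h | h
    · rw [h]
      refine (compAvg_le 0).trans ?_
      simp only [Finset.Icc_eq_empty_of_lt Nat.zero_lt_one, Finset.sum_empty]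
      positivity
    · refine (compAvg_le_log _ h).trans ?_
      have h2 : (⌊(p : ℝ) ^ t⌋₊ : ℝ) ≤ (p : ℝ) ^ t := Nat.floor_le (by positivity)
      have h3 : Real.log (⌊(p : ℝ) ^ t⌋₊ : ℝ) ≤ t * Real.log p := by
        rw [← Real.log_rpow (by linarith)]
        exact Real.log_le_log (by exact_mod_cast h) h2
      have h4 : t * Real.log p ≤ |t| * Real.log p :=
        mul_le_mul_of_nonneg_right (le_abs_self t) hlogp.le
      nlinarith
  calc K * compAvg ⌊(p : ℝ) ^ t⌋₊ ≤ |K| * compAvg ⌊(p : ℝ) ^ t⌋₊ :=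
        mul_le_mul_of_nonneg_right (le_abs_self K) h0
    _ ≤ |K| * ((2 + |t|) * Real.log p) := mul_le_mul_of_nonneg_left h1 (abs_nonneg K)
    _ = _ := by ring

/-- Let `F` be a morphism of `ℙ^N` of degree `d ≥ 2` mapping the coordinate subspace
`L = {x_j = 0 for j > m}` into itself, `1 ≤ m`, such that on `L` the pair `(F 0, F 1)` is
`(a x_0^d, b x_1^d)`, or `(a x_1^d, b x_0^d)`, or `(a x_0^d, ± a D_d(x_0, x_1))` with `D_d` the
homogenised Chebyshev (Dickson) polynomial.  Then for all real `K` and `ε` the set of primes `p` with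
`Comp(G_{f mod p}) ≤ K · Comp^avg(p^((1-ε)N))` has density zero. -/
theorem result (N d m : ℕ) (hN : 1 ≤ N) (hd : 2 ≤ d) (hm : 1 ≤ m)
    (F : Fin (N + 1) → MvPolynomial (Fin (N + 1)) ℤ) (_hF : IsMorphism N d F)
    (hsub : ∀ i : Fin (N + 1), m < (i : ℕ) → F i ∈ tailIdeal N m)
    (a b : ℤ) (ha : a ≠ 0) (hb : b ≠ 0)
    (hbase : (F 0 - C a * X 0 ^ d ∈ tailIdeal N m ∧ F 1 - C b * X 1 ^ d ∈ tailIdeal N m) ∨
      (F 0 - C a * X 1 ^ d ∈ tailIdeal N m ∧ F 1 - C b * X 0 ^ d ∈ tailIdeal N m) ∨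
      ((b = a ∨ b = -a) ∧ F 0 - C a * X 0 ^ d ∈ tailIdeal N m ∧
        F 1 - C b * dickH N d ∈ tailIdeal N m))
    (K ε : ℝ) :
    HasDensityZero {p : ℕ | ∃ _ : Fact p.Prime, GoodReduction p F ∧
      (comps (redMap p F) : ℝ) ≤ K * compAvg ⌊(p : ℝ) ^ ((1 - ε) * N)⌋₊} := by
  set c : ℕ := 1 + ((d * (d - 1)) * (d + 1)).primeFactors.card with hc
  set B : ℝ := |K| * (2 + |(1 - ε) * N|) with hB
  have hB0 : 0 ≤ B := by positivity
  apply hasDensityZero_of_subset _ (4 * 3 ^ c * (B + 1)) (by positivity)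
    (2 + a.natAbs + b.natAbs)
  rintro p ⟨hpf, _, hle⟩ hp hM
  have hp2 : 2 ≤ p := hp.two_le
  have hp' : (2 : ℝ) ≤ p := by exact_mod_cast hp2
  have hlogp : 0 < Real.log p := Real.log_pos (by linarith)
  have h1 := pointwise N d m hN hd hm F hsub a b ha hb hbase p (by omega) (by omega) (by omega)
  have h2 : ((3 : ℝ) ^ (p - 1).primeFactors.card) ≤ 4 * 3 ^ c * (comps (redMap p F) : ℝ) := by
    exact_mod_cast h1
  have h3 := mul_compAvg_le p hp2 K ((1 - ε) * N)
  have h4 : (comps (redMap p F) : ℝ) ≤ (B + 1) * Real.log p := by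
    have := hle.trans h3
    nlinarith
  calc ((3 : ℝ) ^ (p - 1).primeFactors.card) ≤ 4 * 3 ^ c * (comps (redMap p F) : ℝ) := h2
    _ ≤ 4 * 3 ^ c * ((B + 1) * Real.log p) := mul_le_mul_of_nonneg_left h4 (by positivity)
    _ = _ := by ring

end Pool.Agent.Results.MP_05805c_nt.PowerChebyshevBase
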